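import Mathlib

/-!
# MP_4cb3df_gt, Q1: the `<κ`-box power of `κ⁺` many copies of `κ` is never metanormal

For every infinite cardinal `κ`, regular or singular and without any cardinal arithmetic, the space
of all functions from `κ⁺` to `κ` with the `<κ`-box topology is not metanormal.
-/

set_option autoImplicit false

universe u

open Set Cardinal

namespace Pool.Agent.Results.MP_4cb3df_gt.NeverMetanormal

/-- The set of the coordinates: the well-ordered set of type `κ⁺`. -/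
abbrev Crd (κ : Cardinal.{u}) : Type u := (Order.succ κ).ord.ToType

/-- The set of the values: the well-ordered set of type `κ`. -/
abbrev Val (κ : Cardinal.{u}) : Type u := κ.ord.ToType

/-- The points of the box power: all functions from `κ⁺` to `κ`. -/
def BoxPower (κ : Cardinal.{u}) : Type u := Crd κ → Val κ

/-- The set of all `y` which extend the restriction of `x` to `D`. -/
def nbd {κ : Cardinal.{u}} (x : BoxPower κ) (D : Set (Crd κ)) : Set (BoxPower κ) :=
  {y | ∀ i ∈ D, y i = x i}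

/-- The `<κ`-box topology: the sets `nbd x D` with `#D < κ` form a neighbourhood base at `x`.
Stated for infinite `κ`. -/
@[reducible] def boxTopology (κ : Cardinal.{u}) (hκ : ℵ₀ ≤ κ) : TopologicalSpace (BoxPower κ) where
  IsOpen U := ∀ x ∈ U, ∃ D : Set (Crd κ), #D < κ ∧ nbd x D ⊆ U
  isOpen_univ := fun _ _ => ⟨∅, by
    rw [Cardinal.mk_eq_zero]
    exact Cardinal.aleph0_pos.trans_le hκ, subset_univ _⟩
  isOpen_inter := by
    intro s t hs ht x hx
    obtain ⟨D, hD, hD2⟩ := hs x hx.1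
    obtain ⟨D', hD', hD2'⟩ := ht x hx.2
    refine ⟨D ∪ D', (mk_union_le D D').trans_lt (add_lt_of_lt hκ hD hD'), ?_⟩
    intro y hy
    exact ⟨hD2 fun i hi => hy i (Or.inl hi), hD2' fun i hi => hy i (Or.inr hi)⟩
  isOpen_sUnion := by
    intro s hs x hx
    obtain ⟨t, ht, hxt⟩ := hx
    obtain ⟨D, hD, hD2⟩ := hs t ht x hxt
    exact ⟨D, hD, hD2.trans (subset_sUnion_of_mem ht)⟩

/-- Every discrete sequence of closed sets has a point-finite open expansion. -/
def Metanormal (X : Type u) [TopologicalSpace X] : Prop :=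
  ∀ F : ℕ → Set X, (∀ n, IsClosed (F n)) →
    (∀ x, ∃ U : Set X, IsOpen U ∧ x ∈ U ∧
      ∀ m n, (U ∩ F m).Nonempty → (U ∩ F n).Nonempty → m = n) →
    ∃ U : ℕ → Set X, (∀ n, IsOpen (U n)) ∧ (∀ n, F n ⊆ U n) ∧ ∀ x, {n | x ∈ U n}.Finite

section

variable {κ : Cardinal.{u}}

theorem exists_rec {ι D : Type u} [LinearOrder ι] [WellFoundedLT ι]
    (R : (δ : ι) → (∀ γ, γ < δ → D) → D → Prop) (h : ∀ δ d, ∃ x, R δ d x) :
    ∃ F : ι → D, ∀ δ, R δ (fun γ _ => F γ) (F δ) := by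
  let F : ι → D := (wellFounded_lt (α := ι)).fix (fun δ d => (h δ d).choose)
  refine ⟨F, fun δ => ?_⟩
  have : F δ = (h δ (fun γ _ => F γ)).choose := wellFounded_lt.fix_eq _ δ
  rw [this]
  exact (h δ _).choose_spec

theorem mk_Iio_le (a : Crd κ) : #(Iio a) ≤ κ := by
  have := Cardinal.mk_Iio_toType_ord_lt a
  exact Order.lt_succ_iff.1 this

theorem mk_Iic_le (hκ : ℵ₀ ≤ κ) (a : Crd κ) : #(Iic a) ≤ κ := by
  have : Iic a = insert a (Iio a) := by
    ext x
    simp [le_iff_eq_or_lt]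
  rw [this]
  refine (mk_insert_le).trans ?_
  exact add_le_of_le hκ (mk_Iio_le a) (one_le_aleph0.trans hκ)

theorem exists_ub (hκ : ℵ₀ ≤ κ) (S : Set (Crd κ)) (hS : #S ≤ κ) : ∃ b, ∀ s ∈ S, s < b := by
  by_contra hcon
  push Not at hcon
  have h1 : (Set.univ : Set (Crd κ)) ⊆ ⋃ s : S, Iic s.1 := by
    intro b _
    obtain ⟨s, hs, hb⟩ := hcon b
    exact mem_iUnion.2 ⟨⟨s, hs⟩, hb⟩
  have h2 : #(⋃ s : S, Iic s.1 : Set (Crd κ)) ≤ κ := by
    refine (mk_iUnion_le _).trans ?_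
    refine (mul_le_mul' hS (ciSup_le' fun s : S => mk_Iic_le hκ s.1)).trans ?_
    rw [mul_eq_self hκ]
  have h3 : #(Set.univ : Set (Crd κ)) ≤ κ := (mk_le_mk_of_subset h1).trans h2
  rw [mk_univ, mk_ord_toType] at h3
  exact absurd (Order.lt_succ κ) (not_lt.2 h3)

/-- The closed sets: all values other than `v n` are taken at most once. -/
def AA (v : ℕ → Val κ) (n : ℕ) : Set (BoxPower κ) :=
  {x | ∀ i j, x i = x j → x i ≠ v n → i = j}

variable (v : ℕ → Val κ) (D : ℕ → BoxPower κ → Set (Crd κ)) (c : ℕ × Val κ × Val κ → Val κ)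

/-- Weak stability of an initial piece `h` of length `δ`. -/
def Stab (n : ℕ) (δ : Crd κ) (h : BoxPower κ) : Prop :=
  ∀ β : Crd κ, ∃ x ∈ AA v n, (∀ ξ < δ, x ξ = h ξ) ∧ ∀ ξ ∈ D n x, ξ < β → ξ < δ

/-- The admissible pieces of stage `n`. -/
def Admi (n : ℕ) (δ : Crd κ) (h : BoxPower κ) : Prop :=
  InjOn h (Iio δ) ∧ ∀ ξ < δ, ∃ k < n, ∃ a, h ξ = c (k, a)

open Classical in
/-- The piece determined by the sequence `g`. -/
noncomputable def piece (v : ℕ → Val κ) (c : ℕ × Val κ × Val κ → Val κ) (n : ℕ) (δ : Crd κ)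
    (h : BoxPower κ) (e : Crd κ → Crd κ → Val κ) (g : Val κ → Crd κ) : BoxPower κ :=
  fun ξ => if ξ < δ then h ξ else
    if H : ∃ m, ξ < g m then c (n, wellFounded_lt.min {m | ξ < g m} H,
      e (g (wellFounded_lt.min {m | ξ < g m} H)) ξ) else v n

open Classical in
/-- The sequence `g`, made constant after `i`. -/
noncomputable def trunc (g : Val κ → Crd κ) (i : Val κ) : Val κ → Crd κ :=
  fun m => if m ≤ i then g m else g i

variable {v D c}

theorem piece_lt {n : ℕ} {δ : Crd κ} {h : BoxPower κ} {e : Crd κ → Crd κ → Val κ}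
    {g : Val κ → Crd κ} {ξ : Crd κ} (hξ : ξ < δ) : piece v c n δ h e g ξ = h ξ := if_pos hξ

theorem piece_ge {n : ℕ} {δ : Crd κ} {h : BoxPower κ} {e : Crd κ → Crd κ → Val κ}
    {g : Val κ → Crd κ} {ξ : Crd κ} (hξ : ¬ ξ < δ) (m : Val κ) (hm : ξ < g m)
    (hm2 : ∀ i < m, ¬ ξ < g i) : piece v c n δ h e g ξ = c (n, m, e (g m) ξ) := by
  have H : ∃ m, ξ < g m := ⟨m, hm⟩
  have h1 : wellFounded_lt.min {m | ξ < g m} H = m := by
    apply le_antisymm
    · exact not_lt.1 (wellFounded_lt.not_lt_min {m | ξ < g m} hm)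
    · by_contra hcon
      exact hm2 _ (not_le.1 hcon) (wellFounded_lt.min_mem {m | ξ < g m} H)
  unfold piece
  rw [if_neg hξ, dif_pos H, h1]

theorem exists_least {g : Val κ → Crd κ} {ξ : Crd κ} (H : ∃ m, ξ < g m) :
    ∃ m, ξ < g m ∧ ∀ i < m, ¬ ξ < g i :=
  ⟨_, wellFounded_lt.min_mem {m | ξ < g m} H, fun _ hi h =>
    wellFounded_lt.not_lt_min {m | ξ < g m} h hi⟩

theorem piece_none {n : ℕ} {δ : Crd κ} {h : BoxPower κ} {e : Crd κ → Crd κ → Val κ}
    {g : Val κ → Crd κ} {ξ : Crd κ} (hξ : ¬ ξ < δ) (H : ¬ ∃ m, ξ < g m) :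
    piece v c n δ h e g ξ = v n := by
  unfold piece
  rw [if_neg hξ, dif_neg H]

theorem piece_trunc {n : ℕ} {δ : Crd κ} {h : BoxPower κ} {e : Crd κ → Crd κ → Val κ}
    {g : Val κ → Crd κ} {i : Val κ} {ξ : Crd κ} (hi : ξ < g i) :
    piece v c n δ h e (trunc g i) ξ = piece v c n δ h e g ξ := by
  by_cases hξ : ξ < δ
  · rw [piece_lt hξ, piece_lt hξ]
  · obtain ⟨m, hm, hm2⟩ := exists_least ⟨i, hi⟩
    have hmi : m ≤ i := by
      by_contra hcon
      exact hm2 i (not_le.1 hcon) hi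
    have h1 : ∀ k ≤ i, trunc g i k = g k := fun k hk => if_pos hk
    rw [piece_ge hξ m hm hm2, piece_ge hξ m (by rw [h1 m hmi]; exact hm) (fun k hk => by
      rw [h1 k (hk.le.trans hmi)]
      exact hm2 k hk), h1 m hmi]

theorem piece_val {n : ℕ} {δ : Crd κ} {h : BoxPower κ} {e : Crd κ → Crd κ → Val κ}
    {g : Val κ → Crd κ} (hh : Admi c n δ h) {ξ : Crd κ} (H : ξ < δ ∨ ∃ m, ξ < g m) :
    ∃ k < n + 1, ∃ a, piece v c n δ h e g ξ = c (k, a) := by
  by_cases hξ : ξ < δ
  · rw [piece_lt hξ]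
    obtain ⟨k, hk, a, ha⟩ := hh.2 ξ hξ
    exact ⟨k, hk.trans (Nat.lt_succ_self n), a, ha⟩
  · obtain ⟨m, hm, hm2⟩ := exists_least (H.resolve_left hξ)
    exact ⟨n, Nat.lt_succ_self n, _, piece_ge hξ m hm hm2⟩

theorem piece_inj {n : ℕ} {δ : Crd κ} {h : BoxPower κ} {e : Crd κ → Crd κ → Val κ}
    {g : Val κ → Crd κ} (hc : Function.Injective c) (he : ∀ a, InjOn (e a) (Iio a))
    (hh : Admi c n δ h) {ξ ξ' : Crd κ} (H : ξ < δ ∨ ∃ m, ξ < g m)
    (H' : ξ' < δ ∨ ∃ m, ξ' < g m) (heq : piece v c n δ h e g ξ = piece v c n δ h e g ξ') :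
    ξ = ξ' := by
  by_cases hξ : ξ < δ
  · by_cases hξ' : ξ' < δ
    · rw [piece_lt hξ, piece_lt hξ'] at heq
      exact hh.1 hξ hξ' heq
    · obtain ⟨m, hm, hm2⟩ := exists_least (H'.resolve_left hξ')
      rw [piece_lt hξ, piece_ge hξ' m hm hm2] at heq
      obtain ⟨k, hk, a, ha⟩ := hh.2 ξ hξ
      rw [ha] at heq
      have h1 := congrArg Prod.fst (hc heq)
      simp only at h1
      omega
  · obtain ⟨m, hm, hm2⟩ := exists_least (H.resolve_left hξ)
    by_cases hξ' : ξ' < δ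
    · rw [piece_lt hξ', piece_ge hξ m hm hm2] at heq
      obtain ⟨k, hk, a, ha⟩ := hh.2 ξ' hξ'
      rw [ha] at heq
      have h1 := congrArg Prod.fst (hc heq)
      simp only at h1
      omega
    · obtain ⟨m', hm', hm2'⟩ := exists_least (H'.resolve_left hξ')
      rw [piece_ge hξ m hm hm2, piece_ge hξ' m' hm' hm2'] at heq
      have h1 := hc heq
      have h2 : m = m' := congrArg (fun t => t.2.1) h1
      subst h2
      have h3 : e (g m) ξ = e (g m) ξ' := congrArg (fun t => t.2.2) h1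
      exact he (g m) hm hm' h3

theorem main (hκ : ℵ₀ ≤ κ) (hc : Function.Injective c)
    (hD : ∀ n, ∀ x ∈ AA v n, #(D n x) < κ) (n : ℕ) (δ : Crd κ) (h : BoxPower κ)
    (hh : Admi c n δ h) : ∃ δ' h', δ < δ' ∧ Admi c (n + 1) δ' h' ∧ (∀ ξ < δ, h' ξ = h ξ) ∧
      Stab v D n δ' h' := by
  classical
  by_contra hcon
  push Not at hcon
  -- the bounds
  have h1 : ∀ δ' h', ∃ β : Crd κ, δ < δ' → Admi c (n + 1) δ' h' → (∀ ξ < δ, h' ξ = h ξ) →
      ∀ x ∈ AA v n, (∀ ξ < δ', x ξ = h' ξ) → ∃ ξ ∈ D n x, ξ < β ∧ δ' ≤ ξ := by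
    intro δ' h'
    by_cases hP : δ < δ' ∧ Admi c (n + 1) δ' h' ∧ (∀ ξ < δ, h' ξ = h ξ)
    · have h2 := hcon δ' h' hP.1 hP.2.1 hP.2.2
      unfold Stab at h2
      push Not at h2
      obtain ⟨β, hβ⟩ := h2
      exact ⟨β, fun _ _ _ x hx hx2 => hβ x hx hx2⟩
    · exact ⟨δ, fun a b c => absurd ⟨a, b, c⟩ hP⟩
  choose β hβ using h1
  -- the injections
  have h2 : ∀ a : Crd κ, ∃ e : Crd κ → Val κ, InjOn e (Iio a) := by
    intro a
    have h3 : #(Iio a) ≤ #(Val κ) := by
      rw [mk_ord_toType]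
      exact mk_Iio_le a
    obtain ⟨f⟩ := Cardinal.le_def _ _ |>.1 h3
    refine ⟨fun ξ => if hξ : ξ < a then f ⟨ξ, hξ⟩ else v n, ?_⟩
    intro ξ hξ ξ' hξ' heq
    have hξa : ξ < a := hξ
    have hξa' : ξ' < a := hξ'
    simp only [hξa, hξa', dif_pos] at heq
    exact congrArg Subtype.val (f.injective heq)
  choose e he using h2
  -- the recursion
  let gd : (j : Val κ) → ((i : Val κ) → i < j → Crd κ) → Val κ → Crd κ :=
    fun j d m => if hm : m < j then d m hm else δ
  obtain ⟨g, hg⟩ := exists_rec (ι := Val κ) (D := Crd κ) (fun j d x => δ < x ∧ ∀ i < j,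
    gd j d i < x ∧ β (gd j d i) (piece v c n δ h e (trunc (gd j d) i)) ≤ x) (by
      intro j d
      have hj : #(Iio j) ≤ κ := (Cardinal.mk_Iio_toType_ord_lt j).le
      obtain ⟨b, hb⟩ := exists_ub hκ (insert δ ((range fun i : Iio j => gd j d i) ∪
        (range fun i : Iio j => β (gd j d i) (piece v c n δ h e (trunc (gd j d) i))))) (by
          refine mk_insert_le.trans (add_le_of_le hκ ?_ (one_le_aleph0.trans hκ))
          exact (mk_union_le _ _).trans (add_le_of_le hκ (mk_range_le.trans hj)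
            (mk_range_le.trans hj)))
      refine ⟨b, hb δ (mem_insert _ _), fun i hi => ⟨?_, (?_ : _ < _).le⟩⟩
      · exact hb _ (mem_insert_of_mem _ (Or.inl ⟨⟨i, hi⟩, rfl⟩))
      · exact hb _ (mem_insert_of_mem _ (Or.inr ⟨⟨i, hi⟩, rfl⟩)))
  have hgd : ∀ j, ∀ i < j, gd j (fun γ _ => g γ) i = g i := by
    intro j i hi
    simp only [gd]
    rw [dif_pos hi]
  have htr : ∀ j, ∀ i < j, trunc (gd j (fun γ _ => g γ)) i = trunc g i := by
    intro j i hi
    funext m
    unfold trunc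
    by_cases hm : m ≤ i
    · rw [if_pos hm, if_pos hm, hgd j m (hm.trans_lt hi)]
    · rw [if_neg hm, if_neg hm, hgd j i hi]
  have hg1 : ∀ j, δ < g j := fun j => (hg j).1
  have hg2 : ∀ j, ∀ i < j, g i < g j := by
    intro j i hi
    have := ((hg j).2 i hi).1
    rwa [hgd j i hi] at this
  have hg3 : ∀ j, ∀ i < j, β (g i) (piece v c n δ h e (trunc g i)) ≤ g j := by
    intro j i hi
    have := ((hg j).2 i hi).2
    rwa [hgd j i hi, htr j i hi] at this
  -- the final point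
  set x : BoxPower κ := piece v c n δ h e g with hx
  have hxA : x ∈ AA v n := by
    intro i j hij hne
    have hi : i < δ ∨ ∃ m, i < g m := by
      by_contra h3
      push Not at h3
      exact hne (piece_none (not_lt.2 h3.1) (by push Not; exact h3.2))
    have hj : j < δ ∨ ∃ m, j < g m := by
      by_contra h3
      push Not at h3
      refine hne (hij.trans ?_)
      exact piece_none (not_lt.2 h3.1) (by push Not; exact h3.2)
    exact piece_inj hc he hh hi hj hij
  have hstep : ∀ i : Val κ, (∃ j, i < j) → ∃ ξ ∈ D n x, ξ < β (g i) (piece v c n δ h e (trunc g i)) ∧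
      g i ≤ ξ := by
    intro i _
    refine hβ (g i) (piece v c n δ h e (trunc g i)) (hg1 i) ⟨?_, ?_⟩ ?_ x hxA ?_
    · intro ξ hξ ξ' hξ' heq
      rw [piece_trunc hξ, piece_trunc hξ'] at heq
      exact piece_inj hc he hh (Or.inr ⟨i, hξ⟩) (Or.inr ⟨i, hξ'⟩) heq
    · intro ξ hξ
      rw [piece_trunc hξ]
      exact piece_val hh (Or.inr ⟨i, hξ⟩)
    · intro ξ hξ
      exact piece_lt hξ
    · intro ξ hξ
      rw [piece_trunc hξ]
  have hmax : ∀ i : Val κ, ∃ j, i < j := by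
    intro i
    by_contra h3
    push Not at h3
    have h4 : (Set.univ : Set (Val κ)) ⊆ insert i (Iio i) := by
      intro j _
      rcases (h3 j).eq_or_lt with h5 | h5
      · exact Or.inl h5
      · exact Or.inr h5
    have h5 : #(Set.univ : Set (Val κ)) ≤ #(Iio i) + 1 := (mk_le_mk_of_subset h4).trans mk_insert_le
    rw [mk_univ, mk_ord_toType] at h5
    have h6 : #(Iio i) < κ := Cardinal.mk_Iio_toType_ord_lt i
    exact absurd (add_lt_of_lt hκ h6 (one_lt_aleph0.trans_le hκ)) (not_lt.2 h5)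
  choose ξ hξD hξ1 hξ2 using fun i => hstep i (hmax i)
  have hlt : ∀ i j, i < j → ξ i < ξ j := fun i j hij =>
    (hξ1 i).trans_le ((hg3 j i hij).trans (hξ2 j))
  have hinj : Function.Injective (fun i : Val κ => (⟨ξ i, hξD i⟩ : D n x)) := by
    intro i j hij
    have hij' : ξ i = ξ j := congrArg Subtype.val hij
    rcases lt_trichotomy i j with h3 | h3 | h3
    · exact absurd hij' (hlt i j h3).ne
    · exact h3
    · exact absurd hij' (hlt j i h3).ne'
  have h7 := Cardinal.mk_le_of_injective hinj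
  rw [mk_ord_toType] at h7
  exact absurd (hD n x hxA) (not_lt.2 h7)

end

/-- For every infinite cardinal `κ` the `<κ`-box power of `κ⁺` many copies of the discrete space `κ`
is not metanormal. -/
theorem result (κ : Cardinal.{u}) (hκ : ℵ₀ ≤ κ) :
    ¬ @Metanormal (BoxPower κ) (boxTopology κ hκ) := by
  classical
  let _i : TopologicalSpace (BoxPower κ) := boxTopology κ hκ
  intro hmeta
  -- the values
  have hcard : #(Val κ) = κ := mk_ord_toType κ
  obtain ⟨v⟩ : Nonempty (ULift.{u} ℕ ↪ Val κ) := by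
    rw [← Cardinal.le_def]
    simpa using hκ
  obtain ⟨c⟩ : Nonempty (ℕ × Val κ × Val κ ↪ Val κ) := by
    have h1 : lift.{u, 0} #ℕ * (#(Val κ) * #(Val κ)) ≤ #(Val κ) := by
      rw [hcard, mul_eq_self hκ]
      simp only [mk_nat, lift_aleph0]
      exact (aleph0_mul_eq hκ).le
    have h2 : #(ℕ × Val κ × Val κ) ≤ #(Val κ) := by
      rw [mk_prod, mk_prod]
      simpa using h1
    exact (Cardinal.le_def _ _).1 h2
  let w : ℕ → Val κ := fun n => v ⟨n⟩
  have hw : Function.Injective w := fun a b hab => by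
    have := v.injective hab
    exact congrArg ULift.down this
  have hopen : ∀ (x : BoxPower κ) (D : Set (Crd κ)), #D < κ → IsOpen (nbd x D) := by
    intro x D hD y hy
    refine ⟨D, hD, fun z hz i hi => (hz i hi).trans (hy i hi)⟩
  have hpair : ∀ i j : Crd κ, #({i, j} : Set (Crd κ)) < κ := by
    intro i j
    exact (Set.Finite.lt_aleph0 (by simp)).trans_le hκ
  have hclosed : ∀ n, IsClosed (AA w n) := by
    intro n
    rw [← isOpen_compl_iff]
    intro x hx
    have hx' : ¬ ∀ i j, x i = x j → x i ≠ w n → i = j := hx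
    push Not at hx'
    obtain ⟨i, j, hij, hne, hne2⟩ := hx'
    refine ⟨{i, j}, hpair i j, ?_⟩
    intro y hy hyA
    have h1 : y i = x i := hy i (by simp)
    have h2 : y j = x j := hy j (by simp)
    exact hne2 (hyA i j (by rw [h1, h2, hij]) (by rw [h1]; exact hne))
  obtain ⟨U, hU1, hU2, hU3⟩ := hmeta (AA w) hclosed (by
    intro x
    have h1 : ¬ Function.Injective x := by
      intro hinj
      have := Cardinal.mk_le_of_injective hinj
      rw [mk_ord_toType, mk_ord_toType] at this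
      exact absurd (Order.lt_succ κ) (not_lt.2 this)
    unfold Function.Injective at h1
    push Not at h1
    obtain ⟨i, j, hij, hne⟩ := h1
    have key : ∀ m, (nbd x {i, j} ∩ AA w m).Nonempty → x i = w m := by
      rintro m ⟨y, hy, hyA⟩
      by_contra hcon
      have h1 : y i = x i := hy i (by simp)
      have h2 : y j = x j := hy j (by simp)
      exact hne (hyA i j (by rw [h1, h2, hij]) (by rw [h1]; exact hcon))
    exact ⟨nbd x {i, j}, hopen x _ (hpair i j), fun _ _ => rfl, fun m n hm hn =>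
      hw ((key m hm).symm.trans (key n hn))⟩)
  -- the supports
  have h1 : ∀ n (x : BoxPower κ), ∃ D : Set (Crd κ), x ∈ AA w n → #D < κ ∧ nbd x D ⊆ U n := by
    intro n x
    by_cases hx : x ∈ AA w n
    · obtain ⟨D, hD⟩ := hU1 n x (hU2 n hx)
      exact ⟨D, fun _ => hD⟩
    · exact ⟨∅, fun h => absurd h hx⟩
  choose D hD using h1
  have hD1 : ∀ n, ∀ x ∈ AA w n, #(D n x) < κ := fun n x hx => (hD n x hx).1
  -- the sequence of stable pieces
  have hstart : ∃ (δ : Crd κ) (h : BoxPower κ), Admi c 0 δ h := by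
    have hne : Nonempty (Crd κ) := by
      rw [← mk_ne_zero_iff, mk_ord_toType]
      exact (aleph0_pos.trans_le (hκ.trans (Order.le_succ κ))).ne'
    refine ⟨wellFounded_lt.min (Set.univ : Set (Crd κ)) univ_nonempty, fun _ => w 0, ?_, ?_⟩
    · intro ξ hξ
      exact absurd hξ (wellFounded_lt.not_lt_min Set.univ (mem_univ ξ))
    · intro ξ hξ
      exact absurd hξ (wellFounded_lt.not_lt_min Set.univ (mem_univ ξ))
  obtain ⟨δ0, h0, hh0⟩ := hstart
  let St : ℕ → Type u := fun n => {s : Crd κ × BoxPower κ // Admi c n s.1 s.2}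
  have hnext : ∀ n (s : St n), ∃ s' : St (n + 1), s.1.1 < s'.1.1 ∧
      (∀ ξ < s.1.1, s'.1.2 ξ = s.1.2 ξ) ∧ Stab w D n s'.1.1 s'.1.2 := by
    rintro n ⟨⟨δ, h⟩, hh⟩
    obtain ⟨δ', h', h2, h3, h4, h5⟩ := main hκ c.injective hD1 n δ h hh
    exact ⟨⟨(δ', h'), h3⟩, h2, h4, h5⟩
  choose nx hnx1 hnx2 hnx3 using hnext
  let s : (n : ℕ) → St n := fun n => Nat.rec (motive := St) ⟨(δ0, h0), hh0⟩ (fun n s => nx n s) n
  have hs : ∀ n, s (n + 1) = nx n (s n) := fun n => rfl
  let dl : ℕ → Crd κ := fun n => (s n).1.1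
  let hf : ℕ → BoxPower κ := fun n => (s n).1.2
  have hdl : ∀ n, dl n < dl (n + 1) := fun n => hnx1 n (s n)
  have hdlm : StrictMono dl := strictMono_nat_of_lt_succ hdl
  have hhf : ∀ n, ∀ ξ < dl n, hf (n + 1) ξ = hf n ξ := fun n => hnx2 n (s n)
  have hhf2 : ∀ m n, m ≤ n → ∀ ξ < dl m, hf n ξ = hf m ξ := by
    intro m n hmn
    induction n, hmn using Nat.le_induction with
    | base => exact fun _ _ => rfl
    | succ k hk ih =>
      intro ξ hξ
      rw [hhf k ξ (hξ.trans_le (hdlm.monotone hk)), ih ξ hξ]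
  have hst : ∀ n, Stab w D n (dl (n + 1)) (hf (n + 1)) := fun n => hnx3 n (s n)
  -- the bounds and the points
  obtain ⟨B0, hB0⟩ := exists_ub hκ (range dl) ((countable_range dl).le_aleph0.trans hκ)
  have hch : ∀ n (b : Crd κ), ∃ x ∈ AA w n, (∀ ξ < dl (n + 1), x ξ = hf (n + 1) ξ) ∧
      (∀ ξ ∈ D n x, ξ < b → ξ < dl (n + 1)) ∧ ∃ b', b < b' ∧ ∀ ξ ∈ D n x, ξ < b' := by
    intro n b
    obtain ⟨x, hx, hx1, hx2⟩ := hst n b
    obtain ⟨b', hb'⟩ := exists_ub hκ (insert b (D n x))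
      (mk_insert_le.trans (add_le_of_le hκ (hD1 n x hx).le (one_le_aleph0.trans hκ)))
    exact ⟨x, hx, hx1, hx2, b', hb' b (mem_insert _ _), fun ξ hξ => hb' ξ (mem_insert_of_mem _ hξ)⟩
  choose X hX1 hX2 hX3 B' hB1 hB2 using hch
  let B : ℕ → Crd κ := fun n => Nat.rec B0 (fun n b => B' n b) n
  have hBs : ∀ n, B (n + 1) = B' n (B n) := fun n => rfl
  have hBlt : ∀ n, B n < B (n + 1) := fun n => by
    rw [hBs]
    exact hB1 n (B n)
  have hBm : StrictMono B := strictMono_nat_of_lt_succ hBlt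
  let z : BoxPower κ := fun ξ => if H : ∃ n, ξ < dl n then hf (Nat.find H) ξ else
    if H : ∃ n, ξ < B (n + 1) then X (Nat.find H) (B (Nat.find H)) ξ else w 0
  have hz : ∀ n, z ∈ U n := by
    intro n
    refine (hD n (X n (B n)) (hX1 n (B n))).2 ?_
    intro ξ hξ
    rcases lt_or_ge ξ (B n) with h2 | h2
    · have h3 := hX3 n (B n) ξ hξ h2
      have H : ∃ n, ξ < dl n := ⟨n + 1, h3⟩
      change (if H : ∃ n, ξ < dl n then hf (Nat.find H) ξ else
        if H : ∃ n, ξ < B (n + 1) then X (Nat.find H) (B (Nat.find H)) ξ else w 0) = _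
      rw [dif_pos H, hX2 n (B n) ξ h3]
      have h7 : Nat.find H ≤ n + 1 := Nat.find_min' H h3
      exact (hhf2 (Nat.find H) (n + 1) h7 ξ (Nat.find_spec H)).symm
    · have h3 : ξ < B (n + 1) := hB2 n (B n) ξ hξ
      have H1 : ¬ ∃ n, ξ < dl n := by
        rintro ⟨k, hk⟩
        have h4 : dl k < B 0 := hB0 _ ⟨k, rfl⟩
        exact absurd ((hk.trans h4).trans_le (hBm.monotone (Nat.zero_le n))) (not_lt.2 h2)
      have H : ∃ n, ξ < B (n + 1) := ⟨n, h3⟩
      have h5 : Nat.find H = n := by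
        rw [Nat.find_eq_iff]
        refine ⟨h3, fun k hk h6 => absurd (h6.trans_le (hBm.monotone hk)) (not_lt.2 h2)⟩
      change (if H : ∃ n, ξ < dl n then hf (Nat.find H) ξ else
        if H : ∃ n, ξ < B (n + 1) then X (Nat.find H) (B (Nat.find H)) ξ else w 0) = _
      rw [dif_neg H1, dif_pos H, h5]
  have hinf := hU3 z
  have h6 : {n | z ∈ U n} = Set.univ := by
    ext n
    simp only [mem_ofPred_eq, mem_univ, iff_true]
    exact hz n
  rw [h6] at hinf
  exact Set.infinite_univ hinf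

end Pool.Agent.Results.MP_4cb3df_gt.NeverMetanormal
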